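import Pool.Agent.Helper80.AD.GoalsB

/-!
# Project AD, packet LOCF: the local inequalities for a regular automorphism
-/

set_option autoImplicit false

open MvPolynomial

noncomputable section

namespace Pool.Agent.Helper42.AD

open Pool.Agent.Helper80.AD Pool.Agent.Helper80.HD

section hom

variable {R A : Type} [CommRing R] [CommRing A] {N : ℕ}

/-- homogenization to the degree `d` -/
def hmg (d : ℕ) (P : MvPolynomial (Fin N) R) : MvPolynomial (Fin (N + 1)) R :=
  ∑ j ∈ Finset.range (d + 1), X 0 ^ (d - j) * rename Fin.succ (homogeneousComponent j P)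

theorem eval_hmg (ι : R →+* A) (Y : Fin (N + 1) → A) (d : ℕ) (P : MvPolynomial (Fin N) R) :
    eval₂ ι Y (hmg d P) = ∑ j ∈ Finset.range (d + 1),
      Y 0 ^ (d - j) * eval₂ ι (fun i => Y i.succ) (homogeneousComponent j P) := by
  unfold hmg
  rw [eval₂_sum]
  refine Finset.sum_congr rfl fun j _ => ?_
  rw [eval₂_mul, eval₂_pow, eval₂_X, eval₂_rename]
  rfl

theorem eval_smul {j : ℕ} {P : MvPolynomial (Fin N) R} (hP : P.IsHomogeneous j) (ι : R →+* A)
    (l : A) (z : Fin N → A) : eval₂ ι (fun i => l * z i) P = l ^ j * eval₂ ι z P := by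
  rw [eval₂_eq', eval₂_eq', Finset.mul_sum]
  refine Finset.sum_congr rfl fun s hs => ?_
  have h : ∑ i, s i = j := by
    have h1 : Finsupp.weight (fun _ => 1) s = j := hP (mem_support_iff.1 hs)
    rw [← Finsupp.degree_eq_weight_one] at h1
    rw [← h1, Finsupp.degree_eq_sum]
  rw [← h, ← Finset.prod_pow_eq_pow_sum]
  simp only [mul_pow, Finset.prod_mul_distrib]
  ring

theorem eval_hmg_smul (ι : R →+* A) (l : A) (Y : Fin (N + 1) → A) (d : ℕ)
    (P : MvPolynomial (Fin N) R) :
    eval₂ ι (fun i => l * Y i) (hmg d P) = l ^ d * eval₂ ι Y (hmg d P) := by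
  rw [eval_hmg, eval_hmg, Finset.mul_sum]
  refine Finset.sum_congr rfl fun j hj => ?_
  rw [eval_smul (homogeneousComponent_isHomogeneous j P) ι l fun i => Y i.succ]
  have h : l ^ d = l ^ (d - j) * l ^ j := by
    rw [← pow_add]
    congr 1
    have := Finset.mem_range.1 hj
    omega
  rw [h, mul_pow]
  ring

theorem eval_hmg_one (ι : R →+* A) (y : Fin N → A) {d : ℕ} {P : MvPolynomial (Fin N) R}
    (hP : P.totalDegree ≤ d) :
    eval₂ ι (Fin.cons 1 y : Fin (N + 1) → A) (hmg d P) = eval₂ ι y P := by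
  rw [eval_hmg]
  simp only [Fin.cons_zero, one_pow, one_mul, Fin.cons_succ]
  rw [← eval₂_sum]
  congr 1
  conv_rhs => rw [← sum_homogeneousComponent (φ := P)]
  symm
  refine Finset.sum_subset (Finset.range_subset_range.2 (by omega)) fun j _ hj => ?_
  refine homogeneousComponent_eq_zero j P ?_
  have := Finset.mem_range.not.1 hj
  omega

theorem eval_hmg_zero (ι : R →+* A) {Y : Fin (N + 1) → A} (hY : Y 0 = 0) (d : ℕ)
    (P : MvPolynomial (Fin N) R) :
    eval₂ ι Y (hmg d P) = eval₂ ι (fun i => Y i.succ) (homogeneousComponent d P) := by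
  rw [eval_hmg, Finset.sum_range_succ, Nat.sub_self, pow_zero, one_mul, Finset.sum_eq_zero,
    zero_add]
  intro j hj
  have := Finset.mem_range.1 hj
  rw [hY, zero_pow (by omega), zero_mul]

end hom

section vn

variable {F : Type} [CommRing F] {N : ℕ}

theorem le_vn (w : AbsoluteValue F ℝ) (x : Fin (N + 1) → F) (j : Fin (N + 1)) :
    w (x j) ≤ vn w x := le_ciSup (f := fun j => w (x j)) (Set.finite_range _).bddAbove j

theorem exists_vn (w : AbsoluteValue F ℝ) (x : Fin (N + 1) → F) : ∃ j, w (x j) = vn w x :=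
  exists_eq_ciSup_of_finite

theorem vn_le {w : AbsoluteValue F ℝ} {x : Fin (N + 1) → F} {B : ℝ} (h : ∀ j, w (x j) ≤ B) :
    vn w x ≤ B := ciSup_le h

end vn

/-- the polynomials without common zero -/
def vec {K : Type} [Field K] {N : ℕ} (p q : Fin N → MvPolynomial (Fin N) K) (d e : ℕ)
    (j : Fin (N + 1)) : (Fin N ⊕ Fin N ⊕ Unit ⊕ Unit) → MvPolynomial (Fin (N + 1)) K :=
  Sum.elim (fun i => hmg d (p i)) (Sum.elim (fun i => hmg e (q i))
    (Sum.elim (fun _ => X 0) fun _ => X j - 1))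

theorem one_le_vn {F : Type} [Field F] {N : ℕ} (v : AbsoluteValue F ℝ) (y : Fin N → F) :
    1 ≤ vn v (Fin.cons 1 y : Fin (N + 1) → F) := by
  have h := le_vn v (Fin.cons 1 y : Fin (N + 1) → F) 0
  rwa [Fin.cons_zero, map_one] at h

/-- the bound from above -/
theorem upper {K F : Type} [Field K] [Field F] [Algebra K F] {N : ℕ}
    {p : Fin N → MvPolynomial (Fin N) K} {d : ℕ} (hp : ∀ i, (p i).totalDegree ≤ d)
    (v : AbsoluteValue F ℝ) {G : ℝ} (hG : 1 ≤ G)
    (hP : ∀ (i : Fin N) (W : Fin (N + 1) → F), (∀ l, v (W l) ≤ 1) →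
      v (eval₂ (algebraMap K F) W (hmg d (p i))) ≤ G)
    (y yp : Fin N → F) (hyp : ∀ i, yp i = aeval y (p i)) (j : Fin (N + 1))
    (hj : v ((Fin.cons 1 y : Fin (N + 1) → F) j) = vn v (Fin.cons 1 y : Fin (N + 1) → F)) :
    (∀ l, v ((Fin.cons 1 y : Fin (N + 1) → F) l / (Fin.cons 1 y : Fin (N + 1) → F) j) ≤ 1) ∧
    (∀ i, v (yp i) = vn v (Fin.cons 1 y : Fin (N + 1) → F) ^ d *
      v (eval₂ (algebraMap K F) (fun l => (Fin.cons 1 y : Fin (N + 1) → F) l /
        (Fin.cons 1 y : Fin (N + 1) → F) j) (hmg d (p i)))) ∧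
    Real.log (vn v (Fin.cons 1 yp : Fin (N + 1) → F)) ≤
      d * Real.log (vn v (Fin.cons 1 y : Fin (N + 1) → F)) + Real.log G := by
  set Y : Fin (N + 1) → F := Fin.cons 1 y with hY
  set R : ℝ := vn v Y with hR
  have hR1 : 1 ≤ R := one_le_vn v y
  have hR0 : 0 < R := by linarith
  have hYj : Y j ≠ 0 := by
    intro h0
    rw [h0, map_zero] at hj
    linarith
  set W : Fin (N + 1) → F := fun l => Y l / Y j with hW
  have hW1 : ∀ l, v (W l) ≤ 1 := fun l => by
    rw [hW]
    simp only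
    rw [map_div₀, hj, div_le_one hR0]
    exact le_vn v Y l
  have hYW : Y = fun l => Y j * W l := by
    funext l
    rw [hW]
    field_simp
  have hval : ∀ i, v (yp i) = R ^ d * v (eval₂ (algebraMap K F) W (hmg d (p i))) := by
    intro i
    have h1 : yp i = Y j ^ d * eval₂ (algebraMap K F) W (hmg d (p i)) := by
      rw [← eval_hmg_smul, ← hYW, hY, eval_hmg_one _ _ (hp i), hyp, aeval_def]
    rw [h1, map_mul, map_pow, hj]
  refine ⟨hW1, hval, ?_⟩
  have hRd : 1 ≤ R ^ d := one_le_pow₀ hR1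
  have h1 : vn v (Fin.cons 1 yp : Fin (N + 1) → F) ≤ R ^ d * G := by
    refine vn_le fun l => ?_
    refine Fin.cases ?_ (fun i => ?_) l
    · rw [Fin.cons_zero, map_one]
      nlinarith
    · rw [Fin.cons_succ, hval]
      exact mul_le_mul_of_nonneg_left (hP i W hW1) (by positivity)
  have h2 := Real.log_le_log (by linarith [one_le_vn v yp]) h1
  rwa [Real.log_mul (by positivity) (by positivity), Real.log_pow] at h2

theorem key {K F : Type} [Field K] [Field F] [Algebra K F] {N : ℕ}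
    {p q : Fin N → MvPolynomial (Fin N) K} {d e : ℕ} (hd : 2 ≤ d) (he : 2 ≤ e)
    (hp : ∀ i, (p i).totalDegree ≤ d) (hq : ∀ i, (q i).totalDegree ≤ e)
    {c : Fin (N + 1) → (Fin N ⊕ Fin N ⊕ Unit ⊕ Unit) → MvPolynomial (Fin (N + 1)) K}
    (hc : ∀ j, ∑ i, c j i * vec p q d e j i = 1)
    (v : AbsoluteValue F ℝ) {G m : ℝ} (hG : 1 ≤ G) (hm : 1 ≤ m)
    (hP : ∀ (i : Fin N) (W : Fin (N + 1) → F), (∀ l, v (W l) ≤ 1) →
      v (eval₂ (algebraMap K F) W (hmg d (p i))) ≤ G)
    (hQ : ∀ (i : Fin N) (W : Fin (N + 1) → F), (∀ l, v (W l) ≤ 1) →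
      v (eval₂ (algebraMap K F) W (hmg e (q i))) ≤ G)
    (hC : ∀ (j : Fin (N + 1)) (i : Fin N ⊕ Fin N ⊕ Unit ⊕ Unit) (W : Fin (N + 1) → F),
      (∀ l, v (W l) ≤ 1) → v (eval₂ (algebraMap K F) W (c j i)) ≤ G)
    (hsum : ∀ f : (Fin N ⊕ Fin N ⊕ Unit ⊕ Unit) → F, ∑ i, f i = 1 → ∃ i, 1 / m ≤ v (f i))
    (y yp yq : Fin N → F) (hyp : ∀ i, yp i = aeval y (p i)) (hyq : ∀ i, yq i = aeval y (q i)) :
    Real.log (vn v (Fin.cons 1 yp : Fin (N + 1) → F)) ≤
      d * Real.log (vn v (Fin.cons 1 y : Fin (N + 1) → F)) + Real.log (m * G) ∧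
    Real.log (vn v (Fin.cons 1 yq : Fin (N + 1) → F)) ≤
      e * Real.log (vn v (Fin.cons 1 y : Fin (N + 1) → F)) + Real.log (m * G) ∧
    Real.log (vn v (Fin.cons 1 y : Fin (N + 1) → F)) ≤
      max (Real.log (vn v (Fin.cons 1 yp : Fin (N + 1) → F)) / d)
        (Real.log (vn v (Fin.cons 1 yq : Fin (N + 1) → F)) / e) + Real.log (m * G) := by
  obtain ⟨j, hj⟩ := exists_vn v (Fin.cons 1 y : Fin (N + 1) → F)
  obtain ⟨hW1, hvp, hup⟩ := upper hp v hG hP y yp hyp j hj
  obtain ⟨-, hvq, huq⟩ := upper hq v hG hQ y yq hyq j hj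
  have hR1 : 1 ≤ vn v (Fin.cons 1 y : Fin (N + 1) → F) := one_le_vn v y
  have hU1 : 1 ≤ vn v (Fin.cons 1 yp : Fin (N + 1) → F) := one_le_vn v yp
  have hV1 : 1 ≤ vn v (Fin.cons 1 yq : Fin (N + 1) → F) := one_le_vn v yq
  have hlp : ∀ i, v (yp i) ≤ vn v (Fin.cons 1 yp : Fin (N + 1) → F) := fun i => by
    have h := le_vn v (Fin.cons 1 yp : Fin (N + 1) → F) i.succ
    rwa [Fin.cons_succ] at h
  have hlq : ∀ i, v (yq i) ≤ vn v (Fin.cons 1 yq : Fin (N + 1) → F) := fun i => by
    have h := le_vn v (Fin.cons 1 yq : Fin (N + 1) → F) i.succ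
    rwa [Fin.cons_succ] at h
  set Y : Fin (N + 1) → F := Fin.cons 1 y with hY
  set R : ℝ := vn v Y with hR
  set U : ℝ := vn v (Fin.cons 1 yp : Fin (N + 1) → F) with hU
  set V : ℝ := vn v (Fin.cons 1 yq : Fin (N + 1) → F) with hV
  set W : Fin (N + 1) → F := fun l => Y l / Y j with hW
  have hR0 : 0 < R := by linarith
  have hYj : Y j ≠ 0 := by
    intro h0
    rw [h0, map_zero] at hj
    linarith
  have hm0 : 0 < m := by linarith
  have hG0 : 0 < G := by linarith
  have hmG : G ≤ m * G := by nlinarith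
  have hmG1 : 1 ≤ m * G := by linarith
  have hlog : Real.log G ≤ Real.log (m * G) := Real.log_le_log hG0 hmG
  have hlog0 : 0 ≤ Real.log (m * G) := Real.log_nonneg hmG1
  have hlU : 0 ≤ Real.log U := Real.log_nonneg hU1
  have hlV : 0 ≤ Real.log V := Real.log_nonneg hV1
  refine ⟨by linarith, by linarith, ?_⟩
  -- the lower bound
  have hlow : ∀ (D : ℕ) (T : ℝ), 2 ≤ D → 1 ≤ T → R ^ D ≤ m * G * T →
      Real.log R ≤ Real.log T / D + Real.log (m * G) := by
    intro D T hD hT h
    have hD0 : (0 : ℝ) < D := by positivity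
    have h1 := Real.log_le_log (by positivity) h
    rw [Real.log_pow, Real.log_mul (by positivity) (by positivity)] at h1
    have h2 : (D : ℝ) * (Real.log T / D + Real.log (m * G)) =
        Real.log T + D * Real.log (m * G) := by
      field_simp
    have h3 : Real.log (m * G) ≤ D * Real.log (m * G) := by
      have : (1 : ℝ) ≤ D := by exact_mod_cast (by omega : 1 ≤ D)
      nlinarith
    have h4 : (D : ℝ) * Real.log R ≤ D * (Real.log T / D + Real.log (m * G)) := by
      rw [h2]; linarith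
    exact le_of_mul_le_mul_left h4 hD0
  have h1 : ∑ i, eval₂ (algebraMap K F) W (c j i) * eval₂ (algebraMap K F) W (vec p q d e j i) =
      1 := by
    have h2 := congrArg (eval₂ (algebraMap K F) W) (hc j)
    rw [eval₂_sum, eval₂_one] at h2
    rw [← h2]
    exact Finset.sum_congr rfl fun i _ => (eval₂_mul _ _).symm
  obtain ⟨i, hi⟩ := hsum _ h1
  rw [map_mul] at hi
  have hCi := hC j i W hW1
  have h3 : 1 ≤ m * G * v (eval₂ (algebraMap K F) W (vec p q d e j i)) := by
    have h4 : 1 / m ≤ G * v (eval₂ (algebraMap K F) W (vec p q d e j i)) :=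
      hi.trans (mul_le_mul_of_nonneg_right hCi (v.nonneg _))
    rw [div_le_iff₀ hm0] at h4
    linarith
  rcases i with i | i | i | i
  · have h5 := hlp i
    rw [hvp i] at h5
    refine (hlow d U hd hU1 ?_).trans (add_le_add_left (le_max_left _ _) _)
    calc R ^ d ≤ R ^ d * (m * G * v (eval₂ (algebraMap K F) W (hmg d (p i)))) :=
          le_mul_of_one_le_right (by positivity) h3
      _ = m * G * (R ^ d * v (eval₂ (algebraMap K F) W (hmg d (p i)))) := by ring
      _ ≤ m * G * U := mul_le_mul_of_nonneg_left h5 (by positivity)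
  · have h5 := hlq i
    rw [hvq i] at h5
    refine (hlow e V he hV1 ?_).trans (add_le_add_left (le_max_right _ _) _)
    calc R ^ e ≤ R ^ e * (m * G * v (eval₂ (algebraMap K F) W (hmg e (q i)))) :=
          le_mul_of_one_le_right (by positivity) h3
      _ = m * G * (R ^ e * v (eval₂ (algebraMap K F) W (hmg e (q i)))) := by ring
      _ ≤ m * G * V := mul_le_mul_of_nonneg_left h5 (by positivity)
  · have h6 : eval₂ (algebraMap K F) W (X 0 : MvPolynomial (Fin (N + 1)) K) = 1 / Y j := by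
      rw [eval₂_X]
      show Y 0 / Y j = 1 / Y j
      rw [hY, Fin.cons_zero]
    have h7 : 1 ≤ m * G * v (eval₂ (algebraMap K F) W (X 0 : MvPolynomial (Fin (N + 1)) K)) := h3
    rw [h6, map_div₀, map_one, hj] at h7
    have h8 : R ≤ m * G := by
      have h9 : m * G * (1 / R) = m * G / R := by ring
      rw [h9, le_div_iff₀ hR0] at h7
      linarith
    have h10 := Real.log_le_log hR0 h8
    have h11 : 0 ≤ max (Real.log U / d) (Real.log V / e) :=
      le_max_of_le_left (by positivity)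
    linarith
  · have h6 : eval₂ (algebraMap K F) W (X j - 1 : MvPolynomial (Fin (N + 1)) K) = 0 := by
      rw [eval₂_sub, eval₂_X, eval₂_one, hW]
      simp only
      rw [div_self hYj, sub_self]
    have h7 : 1 ≤ m * G * v (eval₂ (algebraMap K F) W (X j - 1 : MvPolynomial (Fin (N + 1)) K)) :=
      h3
    rw [h6, map_zero, mul_zero] at h7
    linarith

theorem locf (hNUL : S_NUL) (hGAM : S_GAM) : S_LOCF := by
  classical
  intro K _ _ _ N p q d e hd he hp hq hreg
  -- Nullstellensatz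
  have hspan : ∀ j : Fin (N + 1), ∃ c : (Fin N ⊕ Fin N ⊕ Unit ⊕ Unit) →
      MvPolynomial (Fin (N + 1)) K, ∑ i, c i * vec p q d e j i = 1 := by
    intro j
    have h1 := hNUL K (Fin (N + 1)) (Set.range (vec p q d e j)) (by
      intro Y
      by_contra hcon
      push Not at hcon
      have h2 : ∀ i, aeval Y (vec p q d e j i) = 0 := fun i => hcon _ ⟨i, rfl⟩
      have hY0 : Y 0 = 0 := by
        have := h2 (Sum.inr (Sum.inr (Sum.inl ())))
        simpa [vec] using this
      have hYj : Y j = 1 := by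
        have := h2 (Sum.inr (Sum.inr (Sum.inr ())))
        simp only [vec, Sum.elim_inr, map_sub, aeval_X, map_one] at this
        exact sub_eq_zero.1 this
      have h3 : (fun i : Fin N => Y i.succ) = 0 := by
        apply hreg
        · intro i
          have := h2 (Sum.inl i)
          simp only [vec, Sum.elim_inl, aeval_def] at this
          rw [eval_hmg_zero _ hY0] at this
          rw [aeval_def]
          exact this
        · intro i
          have := h2 (Sum.inr (Sum.inl i))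
          simp only [vec, Sum.elim_inl, Sum.elim_inr, aeval_def] at this
          rw [eval_hmg_zero _ hY0] at this
          rw [aeval_def]
          exact this
      have h4 : ∀ l, Y l = 0 := fun l => by
        refine Fin.cases hY0 (fun i => ?_) l
        exact congrFun h3 i
      rw [h4 j] at hYj
      exact zero_ne_one hYj)
    have h2 : (1 : MvPolynomial (Fin (N + 1)) K) ∈ Ideal.span (Set.range (vec p q d e j)) := by
      rw [h1]; trivial
    obtain ⟨c, hc⟩ := (Submodule.mem_span_range_iff_exists_fun _).1 h2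
    exact ⟨c, by simpa only [smul_eq_mul] using hc⟩
  choose c hc using hspan
  -- the constants
  obtain ⟨Γ, G', hΓ, hG', hb⟩ := hGAM K (Fin (N + 1))
    ((Set.range fun i : Fin N => hmg d (p i)) ∪ (Set.range fun i : Fin N => hmg e (q i)) ∪
      Set.range fun ji : Fin (N + 1) × (Fin N ⊕ Fin N ⊕ Unit ⊕ Unit) => c ji.1 ji.2)
    (((Set.finite_range _).union (Set.finite_range _)).union (Set.finite_range _))
  set m : ℝ := (Fintype.card (Fin N ⊕ Fin N ⊕ Unit ⊕ Unit) : ℝ) with hm
  have hm1 : 1 ≤ m := by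
    rw [hm]
    exact_mod_cast Fintype.card_pos_iff.2 ⟨Sum.inr (Sum.inr (Sum.inl ()))⟩
  have hmG1 : 1 ≤ m * G' := by nlinarith
  refine ⟨Γ, 1 + Real.log (m * G'), hΓ, by linarith [Real.log_nonneg hmG1], ?_⟩
  intro F y yp yq hyp hyq v
  by_cases hv : IsNonarchimedean v.1
  · have e1 : cst F Γ (1 + Real.log (m * G')) v =
        Real.log (1 * Γ (v.1.comp (algebraMap K F).injective)) := by
      rw [cst, if_pos hv, one_mul]
    rw [e1]
    refine key hd he hp hq hc v.1 (hΓ.1 _) le_rfl ?_ ?_ ?_ ?_ y yp yq hyp hyq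
    · intro i W hW
      exact (hb _ (Or.inl (Or.inl ⟨i, rfl⟩))).1 F v.1 (algebraMap K F) W hv hW
    · intro i W hW
      exact (hb _ (Or.inl (Or.inr ⟨i, rfl⟩))).1 F v.1 (algebraMap K F) W hv hW
    · intro j i W hW
      exact (hb _ (Or.inr ⟨(j, i), rfl⟩)).1 F v.1 (algebraMap K F) W hv hW
    · intro f hf
      by_contra hcon
      push Not at hcon
      have h1 : v.1 (∑ i, f i) < 1 := by
        obtain ⟨i, -, hi⟩ := IsNonarchimedean.finset_image_add_of_nonempty
          (f := (v.1 : F → ℝ)) hv f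
          (⟨Sum.inr (Sum.inr (Sum.inl ())), Finset.mem_univ _⟩ :
            (Finset.univ : Finset (Fin N ⊕ Fin N ⊕ Unit ⊕ Unit)).Nonempty)
        exact lt_of_le_of_lt hi (by simpa using hcon i)
      rw [hf, map_one] at h1
      exact lt_irrefl _ h1
  · obtain ⟨ι, hι⟩ : ∃ ι : F →+* ℂ, ∀ c, v.1 c = ‖ι c‖ := v.2.resolve_left hv
    have e1 : cst F Γ (1 + Real.log (m * G')) v = 1 + Real.log (m * G') := by
      rw [cst, if_neg hv]
    have hev : ∀ (Q : MvPolynomial (Fin (N + 1)) K) (W : Fin (N + 1) → F),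
        v.1 (eval₂ (algebraMap K F) W Q) =
          ‖eval₂ (ι.comp (algebraMap K F)) (fun l => ι (W l)) Q‖ := by
      intro Q W
      rw [hι]
      congr 1
      exact eval₂_comp_left ι (algebraMap K F) W Q
    have h := key (c := c) hd he hp hq hc v.1 hG' hm1 (by
      intro i W hW
      rw [hev]
      exact (hb _ (Or.inl (Or.inl ⟨i, rfl⟩))).2 _ _ fun l => by rw [← hι]; exact hW l) (by
      intro i W hW
      rw [hev]
      exact (hb _ (Or.inl (Or.inr ⟨i, rfl⟩))).2 _ _ fun l => by rw [← hι]; exact hW l) (by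
      intro j i W hW
      rw [hev]
      exact (hb _ (Or.inr ⟨(j, i), rfl⟩)).2 _ _ fun l => by rw [← hι]; exact hW l) (by
      intro f hf
      by_contra hcon
      push Not at hcon
      have h1 : v.1 (∑ i, f i) < 1 := by
        calc v.1 (∑ i, f i) ≤ ∑ i, v.1 (f i) := v.1.sum_le _ _
          _ < ∑ _i : Fin N ⊕ Fin N ⊕ Unit ⊕ Unit, 1 / m :=
              Finset.sum_lt_sum_of_nonempty ⟨Sum.inr (Sum.inr (Sum.inl ())), Finset.mem_univ _⟩
                fun i _ => hcon i
          _ = 1 := by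
              rw [Finset.sum_const, Finset.card_univ, nsmul_eq_mul, ← hm]
              field_simp
      rw [hf, map_one] at h1
      exact lt_irrefl _ h1) y yp yq hyp hyq
    rw [e1]
    refine ⟨by linarith [h.1], by linarith [h.2.1], by linarith [h.2.2]⟩

end Pool.Agent.Helper42.AD
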